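import Pool.Agent.Lib.MP_6bc8af_co.Stmt
import Pool.Agent.Lib.MP_6bc8af_co.Mg.G001

/-! TASK K02 of MP_6bc8af_co. -/

open Classical

namespace LC

universe u

/-- A `k`-connected graph has minimum degree at least `k`.

PROOF. Suppose `N = G.neighborSet v` has fewer than `k` elements and take the finset `S = N.toFinset`. `v ∉ S`. As
`k < Fintype.card V` and `S.card + 1 ≤ k`, there is a vertex `u ∉ S`, `u ≠ v`. In the connected graph `G.induce {x | x ∉ S}` there is
a walk from `v` to `u`, of length at least `1`; its second vertex is a neighbour of `v` outside `S`, impossible. -/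
theorem degree_of_kconn {V : Type u} [Fintype V] {G : SimpleGraph V} {k : ℕ} (h : IsKConn G k) (v : V) :
    k ≤ (G.neighborSet v).ncard := by
  by_contra hcon
  push Not at hcon
  have hSset : G.neighborSet v = ((Finset.univ.filter (fun x => G.Adj v x) : Finset V) : Set V) := by
    ext x; simp
  set S : Finset V := Finset.univ.filter (fun x => G.Adj v x) with hS
  rw [hSset, Set.ncard_coe_finset] at hcon
  have hvS : v ∉ S := by
    rw [hS]; simp
  have hex : ∃ u, u ∉ S ∧ u ≠ v := by
    by_contra hno
    push Not at hno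
    have hsub : (Finset.univ : Finset V) ⊆ insert v S := by
      intro u _
      by_cases hu : u ∈ S
      · exact Finset.mem_insert_of_mem hu
      · rw [hno u hu]; exact Finset.mem_insert_self _ _
    have h1 := Finset.card_le_card hsub
    have h2 := Finset.card_insert_le v S
    have h3 := h.1
    rw [Finset.card_univ] at h1
    omega
  obtain ⟨u, huS, huv⟩ := hex
  obtain ⟨w⟩ := (h.2 S hcon).preconnected ⟨v, hvS⟩ ⟨u, huS⟩
  cases w with
  | nil => exact huv rfl
  | @cons _ b _ hadj p =>
    have h1 : G.Adj v b.1 := hadj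
    have h2 : b.1 ∈ S := Finset.mem_filter.mpr ⟨Finset.mem_univ _, h1⟩
    exact b.2 h2

/-- Minimum degree `k ≥ 2` gives a cycle of length at least `k + 1`.

PROOF. Take an injective sequence `h 0, ..., h n` of vertices with consecutive ones adjacent (a path) with `n` maximal (paths have
fewer edges than `Fintype.card V`). Every neighbour of `h 0` is some `h j`, `1 ≤ j ≤ n` (otherwise extend the path). There are at least
`k` neighbours, so the largest such `j` is at least `k`. `h 0, ..., h j` is a cyclic sequence of length `L = j + 1 ≥ k + 1 ≥ 3`;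
use `walk_of_cycseq`. -/
theorem cycle_of_degree {V : Type u} [Fintype V] [Nonempty V] {G : SimpleGraph V} {k : ℕ} (hk : 2 ≤ k)
    (h : ∀ v, k ≤ (G.neighborSet v).ncard) :
    ∃ (v : V) (w : G.Walk v v), w.IsCycle ∧ k + 1 ≤ w.length := by
  have key : ∃ n, (∃ f : ℕ → V, (∀ i ≤ n, ∀ j ≤ n, f i = f j → i = j) ∧ (∀ i < n, G.Adj (f i) (f (i + 1)))) ∧
      ¬ (∃ f : ℕ → V, (∀ i ≤ n + 1, ∀ j ≤ n + 1, f i = f j → i = j) ∧
        (∀ i < n + 1, G.Adj (f i) (f (i + 1)))) := by
    by_contra hno
    push Not at hno
    have hall : ∀ n, ∃ f : ℕ → V, (∀ i ≤ n, ∀ j ≤ n, f i = f j → i = j) ∧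
        (∀ i < n, G.Adj (f i) (f (i + 1))) := by
      intro n
      induction n with
      | zero =>
        refine ⟨fun _ => Classical.arbitrary V, ?_, ?_⟩
        · intro i hi j hj _; omega
        · intro i hi; omega
      | succ n ih =>
        obtain ⟨f, hf⟩ := ih
        exact hno n ⟨f, hf⟩
    obtain ⟨f, hf, _⟩ := hall (Fintype.card V)
    have hinj : Function.Injective (fun i : Fin (Fintype.card V + 1) => f i.1) := by
      intro a b hab
      exact Fin.ext (hf a.1 (by omega) b.1 (by omega) hab)
    have := Fintype.card_le_of_injective _ hinj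
    rw [Fintype.card_fin] at this
    omega
  obtain ⟨n, ⟨f, hf1, hf2⟩, hmax⟩ := key
  have hnb : ∀ u, G.Adj (f 0) u → ∃ j, 1 ≤ j ∧ j ≤ n ∧ f j = u := by
    intro u hu
    by_contra hno
    push Not at hno
    have hno' : ∀ j, j ≤ n → f j ≠ u := by
      intro j hj
      rcases Nat.eq_zero_or_pos j with h0 | h0
      · rw [h0]; exact hu.ne
      · exact hno j h0 hj
    apply hmax
    refine ⟨fun i => if i = 0 then u else f (i - 1), ?_, ?_⟩
    · intro i hi j hj hij
      simp only at hij
      by_cases h1 : i = 0
      · by_cases h2 : j = 0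
        · omega
        · rw [if_pos h1, if_neg h2] at hij
          exact absurd hij.symm (hno' _ (by omega))
      · by_cases h2 : j = 0
        · rw [if_neg h1, if_pos h2] at hij
          exact absurd hij (hno' _ (by omega))
        · rw [if_neg h1, if_neg h2] at hij
          have := hf1 _ (by omega) _ (by omega) hij
          omega
    · intro i hi
      simp only
      by_cases h1 : i = 0
      · subst h1
        simpa using hu.symm
      · rw [if_neg h1, if_neg (Nat.succ_ne_zero i)]
        have h2 := hf2 (i - 1) (by omega)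
        have h3 : i - 1 + 1 = i + 1 - 1 := by omega
        rw [h3] at h2
        exact h2
  set J : Finset ℕ := (Finset.Icc 1 n).filter (fun j => G.Adj (f 0) (f j)) with hJ
  have hsub : G.neighborSet (f 0) ⊆ ((J.image f : Finset V) : Set V) := by
    intro u hu
    obtain ⟨j, h1, h2, h3⟩ := hnb u hu
    rw [Finset.mem_coe, Finset.mem_image]
    refine ⟨j, ?_, h3⟩
    rw [hJ, Finset.mem_filter, Finset.mem_Icc]
    refine ⟨⟨h1, h2⟩, ?_⟩
    rw [h3]; exact hu
  have hJk : k ≤ J.card := by
    calc k ≤ (G.neighborSet (f 0)).ncard := h _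
      _ ≤ ((J.image f : Finset V) : Set V).ncard := Set.ncard_le_ncard hsub (Finset.finite_toSet _)
      _ = (J.image f).card := Set.ncard_coe_finset _
      _ ≤ J.card := Finset.card_image_le
  have hJne : J.Nonempty := by
    rw [← Finset.card_pos]; omega
  obtain ⟨m, hmJ, hmm⟩ := Finset.exists_max_image J id hJne
  simp only [id] at hmm
  have hJm : J ⊆ Finset.Icc 1 m := by
    intro j hj
    rw [Finset.mem_Icc]
    refine ⟨?_, hmm j hj⟩
    rw [hJ, Finset.mem_filter, Finset.mem_Icc] at hj
    exact hj.1.1
  have hkm : k ≤ m := by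
    have := Finset.card_le_card hJm
    rw [Nat.card_Icc] at this
    omega
  rw [hJ, Finset.mem_filter, Finset.mem_Icc] at hmJ
  have hcyc : CycSeq G (m + 1) f := by
    refine ⟨by omega, ?_, ?_⟩
    · intro i hi j hj hij
      exact hf1 i (by omega) j (by omega) hij
    · intro i hi
      unfold nx
      by_cases h1 : i + 1 = m + 1
      · rw [if_pos h1]
        have : i = m := by omega
        rw [this]
        exact hmJ.2.symm
      · rw [if_neg h1]
        exact hf2 i (by omega)
  obtain ⟨w, hw1, hw2, _⟩ := walk_of_cycseq hcyc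
  exact ⟨f 0, w, hw1, by omega⟩

end LC
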