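import Mathlib

/-! MP_6bc8af_co: the notions of the statement. -/

open Classical

namespace LC

universe u

/-- `G` is `k`-connected: more than `k` vertices, and deleting fewer than `k` vertices leaves a connected graph. -/
def IsKConn {V : Type u} [Fintype V] (G : SimpleGraph V) (k : ℕ) : Prop :=
  k < Fintype.card V ∧ ∀ S : Finset V, S.card < k → (G.induce {v | v ∉ S}).Connected

/-- `w` is a longest cycle of `G`. -/
def IsLongest {V : Type u} {G : SimpleGraph V} {v : V} (w : G.Walk v v) : Prop :=
  w.IsCycle ∧ ∀ (u : V) (w' : G.Walk u u), w'.IsCycle → w'.length ≤ w.length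

/-- the set of common vertices of two closed walks -/
def common {V : Type u} {G : SimpleGraph V} {a b : V} (c : G.Walk a a) (d : G.Walk b b) : Set V :=
  {v | v ∈ c.support ∧ v ∈ d.support}

/-- `G - W` is disconnected (`W` is an articulation set) -/
def IsArticulation {V : Type u} (G : SimpleGraph V) (W : Set V) : Prop :=
  ¬ (G.induce {v | v ∉ W}).Preconnected

/-- the property `A(m)` -/
def PropA {V : Type u} (G : SimpleGraph V) (m : ℕ) : Prop :=
  ∀ (a b : V) (c : G.Walk a a) (d : G.Walk b b), IsLongest c → IsLongest d →
    c.toSubgraph ≠ d.toSubgraph → (common c d).ncard ≤ m → IsArticulation G (common c d)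

/-- the integers `m` such that every `k`-connected non-Hamiltonian graph has property `A(m)` -/
def fSet (k : ℕ) : Set ℕ :=
  {m | ∀ (V : Type) [Fintype V] (G : SimpleGraph V), IsKConn G k → ¬ G.IsHamiltonian → PropA G m}

/-- the integers `m` such that every `k`-connected non-Hamiltonian graph of circumference larger than `m` has
property `A(m)` -/
def fSet' (k : ℕ) : Set ℕ :=
  {m | ∀ (V : Type) [Fintype V] (G : SimpleGraph V), IsKConn G k → ¬ G.IsHamiltonian →
    (∃ (v : V) (w : G.Walk v v), w.IsCycle ∧ m < w.length) → PropA G m}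

/-- `f(k)`, the largest element of `fSet k` (as an extended natural number) -/
noncomputable def f (k : ℕ) : ℕ∞ := ⨆ m ∈ fSet k, (m : ℕ∞)

/-- `f'(k)`, the largest element of `fSet' k` (as an extended natural number) -/
noncomputable def f' (k : ℕ) : ℕ∞ := ⨆ m ∈ fSet' k, (m : ℕ∞)

end LC
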