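import Pool.Agent.Lib.MP_6bc8af_co.Mg.G029
import Pool.Agent.Lib.MP_6bc8af_co.Mg.G017

set_option autoImplicit false

namespace LC.NearLinear

open LC

/-- **The growth exponents of `f` and `f'` are one.** For every `ε > 0` there is `c₀ > 0` such that for all `k ≥ 2` any
two longest cycles of a `k`-connected graph have at least `c₀ k ^ (1 - ε)` common vertices, and
`f(k), f'(k) ≥ c₀ k ^ (1 - ε) - 1`; moreover `f(k) ≤ 2 k - 1` for all `k ≥ 3` and `f'(k) ≤ 2 k + 7` for all `k ≥ 1`. -/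
theorem result :
    (∀ ε : ℝ, 0 < ε → ∃ c₀ : ℝ, 0 < c₀ ∧ ∀ k : ℕ, 2 ≤ k →
      (∀ (V : Type) [Fintype V] (G : SimpleGraph V), IsKConn G k →
        ∀ (a b : V) (c : G.Walk a a) (d : G.Walk b b), IsLongest c → IsLongest d →
          c₀ * (k : ℝ) ^ (1 - ε) ≤ ((common c d).ncard : ℝ)) ∧
      ∃ m : ℕ, c₀ * (k : ℝ) ^ (1 - ε) - 1 ≤ m ∧ (m : ℕ∞) ≤ f k ∧ (m : ℕ∞) ≤ f' k) ∧
    (∀ k : ℕ, 3 ≤ k → f k ≤ ((2 * k - 1 : ℕ) : ℕ∞)) ∧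
    ∀ k : ℕ, 1 ≤ k → f' k ≤ ((2 * k + 7 : ℕ) : ℕ∞) := by
  refine ⟨fun ε hε => ?_, f_le, f'_le⟩
  obtain ⟨c₀, hc, h⟩ := meet_bound.{0} ε hε
  exact ⟨c₀, hc, fun k hk => ⟨fun V _ G hG => h V G k hk hG, le_f ε c₀ hc h k hk⟩⟩

end LC.NearLinear
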